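import Pool.Agent.Z125.UN.MotDefs

/-!
# Motives of abelian type
-/

set_option autoImplicit false

open CategoryTheory MonoidalCategory AlgebraicGeometry Pool.Agent.TH137.DG Pool.Agent.Y116.UV
  Pool.Agent.Z125.UN

namespace Pool.Agent.U672.AB

universe v u

variable {k : Type} [Field k] {C : Type u} [Category.{v} C] [MonoidalCategory C]
  [SymmetricCategory C] [Preadditive C] [Linear ℚ C] [Limits.HasZeroObject C] [HasShift C ℤ]
  [∀ n : ℤ, (shiftFunctor C n).Additive] [Pretriangulated C]

/-- The smallest class of objects which contains the objects in the class `G`, with an object its shifts,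
its direct factors, its Tate twists `L ⊗ A` and the objects whose Tate twist it is, with two objects
their tensor product, and with two objects of a distinguished triangle also the third one. -/
inductive Thick (D : Motives k C) (G : C → Prop) : C → Prop
  | gen (A : C) : G A → Thick D G A
  | cone (T : Pretriangulated.Triangle C) : T ∈ Pretriangulated.distinguishedTriangles →
      Thick D G T.obj₁ → Thick D G T.obj₂ → Thick D G T.obj₃
  | shift (A : C) (n : ℤ) : Thick D G A → Thick D G (A⟦n⟧)
  | factor (A B : C) (s : A ⟶ B) (r : B ⟶ A) : s ≫ r = 𝟙 A → Thick D G B → Thick D G A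
  | tensor (A B : C) : Thick D G A → Thick D G B → Thick D G (A ⊗ B)
  | twist (A : C) : Thick D G A → Thick D G (D.L ⊗ A)
  | untwist (A : C) : Thick D G (D.L ⊗ A) → Thick D G A

/-- The motives of the smooth schemes of dimension at most one. -/
def CurveMotives (D : Motives k C) (A : C) : Prop :=
  ∃ X : Sch k, FT True X ∧ Smooth X.hom ∧ topologicalKrullDim X.left ≤ (1 : ℕ) ∧ A = D.M X

/-- The object `A` is of abelian type: it is in the thick tensor triangulated subcategory generated by the
motives of the smooth schemes of dimension at most one and the Tate twists. -/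
def AbType (D : Motives k C) (A : C) : Prop := Thick D (CurveMotives D) A

/-- Standard properties of the triangulated category of geometric motives with rational coefficients over a
perfect field `k`, and of the motives `M X` of the smooth schemes and the motives with compact support `Mc X`
of the separated schemes of finite type over `k`.

* `iso`: isomorphic schemes have isomorphic motives with compact support;
* `localization`: the triangle `Mc Z → Mc X → Mc U → Mc Z[1]` for a closed subscheme `Z` of `X` and
  its complement `U` (Voevodsky, Kelly);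
* `bundle`: for the affine bundle `Spec A[w_1, …, w_m] / (∑ f_l w_l - 1) → U` with fibre `𝔸^(m-1)`,
  where `U` is the complement of `f = 0` in `Spec A`, the motive with compact support of the total
  space is the one of `U` twisted by `(m-1)[2m-2]`;
* `torus`: `Mc (X × 𝔾_m)` is the sum of `Mc X (1)[2]` and `Mc X [1]`;
* `point`: `Mc (Spec k)` is the unit, which is the motive of the point;
* `duality`: for smooth `X` the object `Mc X` is, up to a Tate twist on each connected component,
  the dual of `M X` (and the class of the objects of abelian type is stable under duality);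
* `kuenneth`: `Mc (X × Y) = Mc X ⊗ Mc Y` (Voevodsky, Kelly);
* `transfer`: if `B` is a free `A`-module of finite rank `d + 1`, then `Mc (Spec A)` is a direct summand
  of `Mc (Spec B)`. -/
structure GeoMotives (D : Motives k C) : Prop where
  iso : ∀ {X Y : Sch k}, FT True X → Nonempty (X ≅ Y) → Nonempty (D.Mc X ≅ D.Mc Y)
  localization : ∀ {Z X U : Sch k} (i : Z ⟶ X) (j : U ⟶ X), FT True X → IsTriple i j →
    ∃ (a : D.Mc Z ⟶ D.Mc X) (b : D.Mc X ⟶ D.Mc U) (d : D.Mc U ⟶ (D.Mc Z)⟦(1 : ℤ)⟧),
      Pretriangulated.Triangle.mk a b d ∈ Pretriangulated.distinguishedTriangles (C := C)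
  bundle : ∀ (A : Type) [CommRing A] [Algebra k A] [Algebra.FiniteType k A] (m : ℕ)
    (f : Fin m → A) (U : Sch k) (j : U ⟶ aff k A), IsOpenImmersion j.left →
    Set.range j.left = {x : PrimeSpectrum A | ∃ l, f l ∉ x.asIdeal} →
    Nonempty (D.Mc (aff k (Jou f)) ≅ tw D.L (m - 1) (D.Mc U))
  torus : ∀ (A : Type) [CommRing A] [Algebra k A] [Algebra.FiniteType k A],
    ∃ (s : D.L ⊗ D.Mc (aff k A) ⟶ D.Mc (aff k (LaurentPolynomial A)))
      (r : D.Mc (aff k (LaurentPolynomial A)) ⟶ D.L ⊗ D.Mc (aff k A)), s ≫ r = 𝟙 _
  point : Nonempty (D.Mc (aff k k) ≅ 𝟙_ C) ∧ Nonempty (D.M (aff k k) ≅ 𝟙_ C)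
  duality : ∀ X : Sch k, FT True X → Smooth X.hom → (AbType D (D.M X) ↔ AbType D (D.Mc X))
  kuenneth : ∀ (A B : Type) [CommRing A] [CommRing B] [Algebra k A] [Algebra k B]
    [Algebra.FiniteType k A] [Algebra.FiniteType k B],
    Nonempty (D.Mc (aff k (TensorProduct k A B)) ≅ D.Mc (aff k A) ⊗ D.Mc (aff k B))
  transfer : ∀ (A B : Type) [CommRing A] [CommRing B] [Algebra k A] [Algebra k B] [Algebra A B]
    [IsScalarTower k A B] [Algebra.FiniteType k A] (d : ℕ),
    Nonempty (Module.Basis (Fin (d + 1)) A B) →
      ∃ (s : D.Mc (aff k A) ⟶ D.Mc (aff k B)) (r : D.Mc (aff k B) ⟶ D.Mc (aff k A)), s ≫ r = 𝟙 _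

end Pool.Agent.U672.AB
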