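import Pool.Agent.U672.AB.Defs
import Pool.Agent.U672.ST.Main
import Pool.Agent.U672.TC.Main
import Pool.Agent.Z125.UN.MotUni

/-!
# Motives of abelian type: closure properties
-/

set_option autoImplicit false

open CategoryTheory MonoidalCategory AlgebraicGeometry Pool.Agent.TH137.DG Pool.Agent.Y116.UV
  Pool.Agent.Z125.UN Pool.Agent.U672.ST Pool.Agent.U672.TC Pool.Agent.U738.BN Pretriangulated

namespace Pool.Agent.U672.AB

universe v u

variable {k : Type} [Field k] {C : Type u} [Category.{v} C] [MonoidalCategory C]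
  [SymmetricCategory C] [Preadditive C] [Linear ℚ C] [Limits.HasZeroObject C] [HasShift C ℤ]
  [∀ n : ℤ, (shiftFunctor C n).Additive] [Pretriangulated C] {D : Motives k C} {G : C → Prop}

lemma Thick.iso {A B : C} (e : Nonempty (A ≅ B)) (h : Thick D G A) : Thick D G B := by
  obtain ⟨e⟩ := e
  exact Thick.factor B A e.inv e.hom e.inv_hom_id h

lemma Thick.iso_iff {A B : C} (e : Nonempty (A ≅ B)) : Thick D G A ↔ Thick D G B :=
  ⟨Thick.iso e, Thick.iso (e.map Iso.symm)⟩

lemma Thick.unshift (A : C) (h : Thick D G (A⟦(1 : ℤ)⟧)) : Thick D G A :=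
  Thick.iso ⟨shiftShiftNeg A (1 : ℤ)⟩ (Thick.shift _ (-1) h)

lemma Thick.tw_iff (A : C) : ∀ n, Thick D G (tw D.L n A) ↔ Thick D G A
  | 0 => Iff.rfl
  | n + 1 => (⟨Thick.untwist _, Thick.twist _⟩ : _ ↔ _).trans (Thick.tw_iff A n)

/-- monotonicity -/
lemma Thick.le {G' : C → Prop} (h : ∀ A, G A → Thick D G' A) {A : C} (hA : Thick D G A) :
    Thick D G' A := by
  induction hA with
  | gen A hA => exact h A hA
  | cone T hT _ _ h1 h2 => exact Thick.cone T hT h1 h2
  | shift A n _ h1 => exact Thick.shift A n h1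
  | factor A B s r hs _ h1 => exact Thick.factor A B s r hs h1
  | tensor A B _ _ h1 h2 => exact Thick.tensor A B h1 h2
  | twist A _ h1 => exact Thick.twist A h1
  | untwist A _ h1 => exact Thick.untwist A h1

variable (hD : GeoMotives D)

include hD

lemma ab_pt : AbType D (D.Mc (aff k k)) := by
  have h1 : topologicalKrullDim (aff k k).left ≤ (1 : ℕ) := by
    rw [topDim_aff, ringKrullDim_eq_zero_of_field]
    exact_mod_cast zero_le_one (α := ℕ)
  have h2 : AbType D (D.M (aff k k)) := Thick.gen _ ⟨_, ft_aff True, smooth_aff inferInstance, h1, rfl⟩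
  exact Thick.iso ⟨hD.point.2.some ≪≫ hD.point.1.some.symm⟩ h2

theorem bnd_ab : Bnd True fun X : Sch k => AbType D (D.Mc X) where
  iso h e := Thick.iso (hD.iso h e)
  total i j h ht hZ hU := by
    obtain ⟨a, b, d, hT⟩ := hD.localization i j h ht
    exact Thick.cone _ (inv_rot_of_distTriang _ hT) (Thick.shift _ (-1) hU) hZ
  opened i j h ht hZ hX := by
    obtain ⟨a, b, d, hT⟩ := hD.localization i j h ht
    exact Thick.cone _ hT hZ hX
  closed i j h ht hX hU := by
    obtain ⟨a, b, d, hT⟩ := hD.localization i j h ht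
    exact Thick.unshift _ (Thick.cone _ (rot_of_distTriang _ hT) hX hU)
  space n := by
    have h2 := hD.bundle k (n + 1) (f1 k n) (aff k k) (𝟙 _) inferInstance (range_id n)
    have h3 : AbType D (D.Mc (aff k (Jou (f1 k n)))) :=
      (Thick.iso_iff h2).mpr ((Thick.tw_iff _ _).mpr (ab_pt hD))
    exact Thick.iso (hD.iso (ft_aff True) ⟨(affIso (jouOne k n)).symm⟩) h3
  jouanolou A _ _ _ m f U j hj hr h :=
    (Thick.tw_iff _ _).mp ((Thick.iso_iff (hD.bundle A m f U j hj hr)).mp h)
  torus A _ _ _ h := by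
    obtain ⟨s, r, hs⟩ := hD.torus A
    exact Thick.untwist _ (Thick.factor _ _ s r hs h)
  bundle A _ _ _ m f U j hj hr h :=
    (Thick.iso_iff (hD.bundle A m f U j hj hr)).mpr ((Thick.tw_iff _ _).mpr h)

theorem bndt_ab : BndT fun X : Sch k => AbType D (D.Mc X) where
  toBnd := bnd_ab hD
  prod A B _ _ _ _ _ _ hA hB :=
    (Thick.iso_iff (hD.kuenneth A B)).mpr (Thick.tensor _ _ hA hB)
  transfer A B _ _ _ _ _ _ _ d b h := by
    obtain ⟨s, r, hs⟩ := hD.transfer A B d b
    exact Thick.factor _ _ s r hs h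

/-- schemes of dimension at most one -/
lemma ab_dim [PerfectField k] (X : Sch k) (hX : FT True X)
    (hd : topologicalKrullDim X.left ≤ (1 : ℕ)) : AbType D (D.Mc X) :=
  dim_smooth (bnd_ab hD) 1 (fun X hX hs hn => (hD.duality X hX hs).mp
    (Thick.gen _ ⟨X, hX, hs, hn, rfl⟩)) X hX hd

lemma ab_curve [PerfectField k] (A : Type) [CommRing A] [Algebra k A] [Algebra.FiniteType k A]
    (hA : ringKrullDim A ≤ (1 : ℕ)) : AbType D (D.Mc (aff k A)) :=
  ab_dim hD _ (ft_aff True) (by rw [topDim_aff]; exact hA)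

theorem posN_ab [PerfectField k] : PosN True (fun X : Sch k => AbType D (D.Mc X)) 1 := by
  have h := pos_of_bnd (bndt_ab hD).toBnd fun A _ _ _ => by
    refine ab_curve hD A ?_
    refine (dim_integral (A := k) A).trans ?_
    rw [ringKrullDim_eq_zero_of_field]
    exact_mod_cast zero_le_one (α := ℕ)
  exact { toPos := h, dim := fun A _ _ _ hA => ab_curve hD A hA }

end Pool.Agent.U672.AB
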